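import Pool.Agent.P09.Triple.Models

/-!
# Simple triple systems with the identities (I1), (I2), (I3): the complete list

Up to isomorphism the finite-dimensional simple triple systems over `ℂ` satisfying (I1), (I2), (I3)
are the full matrix spaces `M_n(ℂ)`, `n ≥ 1`, with `B(X, Y, Z) = XYZ`, and the spaces
`M_{p,q}(ℂ) × M_{q,p}(ℂ)`, `1 ≤ p ≤ q`, with
`B(X, Y, Z) = (X₁ Y₂ Z₁, X₂ Y₁ Z₂)`; these are pairwise non-isomorphic.
-/

set_option autoImplicit false

namespace Pool.Agent.P09.Triple.Alt.Plain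

universe u v

section Defs

variable {W : Type u} [AddCommGroup W] [Module ℂ W]

/-- `B : W × W × W → W` is trilinear. -/
def IsTrilinear (B : W → W → W → W) : Prop :=
  (∀ (a b : ℂ) (X X' Y Z : W), B (a • X + b • X') Y Z = a • B X Y Z + b • B X' Y Z) ∧
  (∀ (a b : ℂ) (X Y Y' Z : W), B X (a • Y + b • Y') Z = a • B X Y Z + b • B X Y' Z) ∧
  (∀ (a b : ℂ) (X Y Z Z' : W), B X Y (a • Z + b • Z') = a • B X Y Z + b • B X Y Z')

/-- `I` is an ideal of `(W, B)`: `B(I,W,W) + B(W,I,W) + B(W,W,I) ⊆ I`. -/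
def IsIdeal (B : W → W → W → W) (I : Submodule ℂ W) : Prop :=
  ∀ X ∈ I, ∀ Y Z : W, B X Y Z ∈ I ∧ B Y X Z ∈ I ∧ B Y Z X ∈ I

/-- `(W, B)` is simple: `B ≠ 0` and the only ideals are `0` and `W`. -/
def IsSimple (B : W → W → W → W) : Prop :=
  (∃ X Y Z : W, B X Y Z ≠ 0) ∧ ∀ I : Submodule ℂ W, IsIdeal B I → I = ⊥ ∨ I = ⊤

/-- the identity (I1): `B(X,Y,B(X,V,U)) = B(X,B(Y,X,V),U)` -/
def I1 (B : W → W → W → W) : Prop :=
  ∀ X Y U V : W, B X Y (B X V U) = B X (B Y X V) U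

/-- the identity (I2): `B(X,B(Y,Z,V),Z) = B(B(X,Y,Z),V,Z)` -/
def I2 (B : W → W → W → W) : Prop :=
  ∀ X Y Z V : W, B X (B Y Z V) Z = B (B X Y Z) V Z

/-- the identity (I3): `B(X,Y,B(Z,Y,V)) = B(B(X,Y,Z),Y,V)` -/
def I3 (B : W → W → W → W) : Prop :=
  ∀ X Y Z V : W, B X Y (B Z Y V) = B (B X Y Z) Y V

/-- isomorphism of triple systems: a linear bijection `φ` with
`φ(B(X,Y,Z)) = B'(φX,φY,φZ)` -/
def IsoTo {W' : Type v} [AddCommGroup W'] [Module ℂ W'] (B : W → W → W → W)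
    (B' : W' → W' → W' → W') : Prop :=
  ∃ φ : W ≃ₗ[ℂ] W', ∀ X Y Z : W, φ (B X Y Z) = B' (φ X) (φ Y) (φ Z)

end Defs

/-- the `n × n` matrices with `B(X,Y,Z) = XYZ` -/
def matSys (n : ℕ) (X Y Z : Matrix (Fin n) (Fin n) ℂ) : Matrix (Fin n) (Fin n) ℂ :=
  X * Y * Z

/-- the pairs of a `p × q` and a `q × p` matrix with `B(X,Y,Z) = (X₁Y₂Z₁, X₂Y₁Z₂)` -/
def pairSys (p q : ℕ) (X Y Z : Matrix (Fin p) (Fin q) ℂ × Matrix (Fin q) (Fin p) ℂ) :
    Matrix (Fin p) (Fin q) ℂ × Matrix (Fin q) (Fin p) ℂ :=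
  (X.1 * Y.2 * Z.1, X.2 * Y.1 * Z.2)

section Bridge

open Pool.Agent.P09.Triple

variable {W : Type u} [AddCommGroup W] [Module ℂ W]

/-- a trilinear map in curried form -/
def toLin (B : W → W → W → W) (hB : IsTrilinear B) : W →ₗ[ℂ] W →ₗ[ℂ] W →ₗ[ℂ] W :=
  LinearMap.mk₂ ℂ
    (fun X Y =>
      { toFun := fun Z => B X Y Z
        map_add' := by
          intro Z Z'
          have := hB.2.2 1 1 X Y Z Z'
          simpa using this
        map_smul' := by
          intro c Z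
          have := hB.2.2 c 0 X Y Z 0
          simpa using this })
    (by
      intro X X' Y
      refine LinearMap.ext fun Z => ?_
      have := hB.1 1 1 X X' Y Z
      simpa using this)
    (by
      intro c X Y
      refine LinearMap.ext fun Z => ?_
      have := hB.1 c 0 X 0 Y Z
      simpa using this)
    (by
      intro X Y Y'
      refine LinearMap.ext fun Z => ?_
      have := hB.2.1 1 1 X Y Y' Z
      simpa using this)
    (by
      intro c X Y
      refine LinearMap.ext fun Z => ?_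
      have := hB.2.1 c 0 X Y 0 Z
      simpa using this)

lemma toLin_apply (B : W → W → W → W) (hB : IsTrilinear B) (X Y Z : W) :
    toLin B hB X Y Z = B X Y Z := rfl

lemma isSimple_iff (B : W → W → W → W) (hB : IsTrilinear B) :
    IsSimple B ↔ IsSimpleTriple (toLin B hB) := by
  constructor
  · rintro ⟨⟨X, Y, Z, h⟩, h2⟩
    refine ⟨?_, h2⟩
    intro h0
    apply h
    rw [← toLin_apply B hB, h0]
    rfl
  · rintro ⟨h1, h2⟩
    refine ⟨?_, h2⟩
    by_contra hcon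
    push Not at hcon
    apply h1
    refine LinearMap.ext fun X => LinearMap.ext fun Y => LinearMap.ext fun Z => ?_
    exact hcon X Y Z

lemma IsoTo.trilinear_mat {B : W → W → W → W} {n : ℕ} (h : IsoTo B (matSys n)) :
    IsTrilinear B := by
  obtain ⟨φ, hφ⟩ := h
  refine ⟨?_, ?_, ?_⟩ <;> intros <;> apply φ.injective <;>
    simp [hφ, matSys, Matrix.add_mul, Matrix.mul_add]

lemma IsoTo.trilinear_pair {B : W → W → W → W} {p q : ℕ} (h : IsoTo B (pairSys p q)) :
    IsTrilinear B := by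
  obtain ⟨φ, hφ⟩ := h
  refine ⟨?_, ?_, ?_⟩ <;> intros <;> apply φ.injective <;>
    simp [hφ, pairSys, Matrix.add_mul, Matrix.mul_add]

end Bridge

open Pool.Agent.P09.Triple in
/-- **Classification** of the simple triple systems satisfying (I1), (I2), (I3). -/
theorem result :
    (∀ (W : Type u) [AddCommGroup W] [Module ℂ W] [FiniteDimensional ℂ W] (B : W → W → W → W),
      (IsTrilinear B ∧ IsSimple B ∧ I1 B ∧ I2 B ∧ I3 B) ↔
        ((∃ n : ℕ, 1 ≤ n ∧ IsoTo B (matSys n)) ∨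
          (∃ p q : ℕ, 1 ≤ p ∧ p ≤ q ∧ IsoTo B (pairSys p q)))) ∧
    (∀ n m : ℕ, IsoTo (matSys n) (matSys m) → n = m) ∧
    (∀ p q p' q' : ℕ, 1 ≤ p → p ≤ q → 1 ≤ p' → p' ≤ q' →
      IsoTo (pairSys p q) (pairSys p' q') → p = p' ∧ q = q') ∧
    (∀ n p q : ℕ, 1 ≤ p → p ≤ q → ¬ IsoTo (matSys n) (pairSys p q)) := by
  have hm : ∀ n, IsoTo (matSys n) (matSys n) := fun n => ⟨LinearEquiv.refl ℂ _, fun _ _ _ => rfl⟩
  have hp0 : ∀ p q, IsoTo (pairSys p q) (pairSys p q) :=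
    fun p q => ⟨LinearEquiv.refl ℂ _, fun _ _ _ => rfl⟩
  refine ⟨?_, ?_, ?_, ?_⟩
  · intro W _ _ _ B
    constructor
    · rintro ⟨ht, hs, h1, h2, h3⟩
      have h : Ids (toLin B ht) := ⟨h1, h2, h3⟩
      exact h.classification ((isSimple_iff B ht).1 hs)
    · rintro (⟨n, hn, hB⟩ | ⟨p, q, hp, hpq, hB⟩)
      · have ht := hB.trilinear_mat
        have hB' : IsoMat (toLin B ht) n := hB
        exact ⟨ht, (isSimple_iff B ht).2 (hB'.simple hn), hB'.ids.i1, hB'.ids.i2, hB'.ids.i3⟩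
      · have ht := hB.trilinear_pair
        have hB' : IsoPair (toLin B ht) p q := hB
        exact ⟨ht, (isSimple_iff B ht).2 (hB'.simple hp (hp.trans hpq)), hB'.ids.i1, hB'.ids.i2,
          hB'.ids.i3⟩
  · intro n m hnm
    have ht := (hm n).trilinear_mat
    have h1 : IsoMat (toLin (matSys n) ht) n := hm n
    have h2 : IsoMat (toLin (matSys n) ht) m := hnm
    exact h1.unique h2
  · intro p q p' q' hp hpq hp' hpq' hiso
    have ht := (hp0 p q).trilinear_pair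
    have h1 : IsoPair (toLin (pairSys p q) ht) p q := hp0 p q
    have h2 : IsoPair (toLin (pairSys p q) ht) p' q' := hiso
    exact h1.unique hp hpq hp' hpq' h2
  · intro n p q hp hpq hiso
    have ht := (hm n).trilinear_mat
    have h1 : IsoMat (toLin (matSys n) ht) n := hm n
    have h2 : IsoPair (toLin (matSys n) ht) p q := hiso
    exact h1.not_pair hp (hp.trans hpq) h2

end Pool.Agent.P09.Triple.Alt.Plain
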